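import Pool.Agent.Helper87.JE.Taylor

/-!
T5: exponential sums with fractional powers (MP_ce5406_an).
-/

open MeasureTheory Filter Topology Finset
open scoped BigOperators ComplexConjugate

namespace Pool.Agent.JE

namespace ES

/-! ### Averages -/

theorem avg_add (N : ℕ) (a b : ℕ → ℂ) : avg N (fun n => a n + b n) = avg N a + avg N b := by
  unfold avg; rw [Finset.sum_add_distrib, add_div]

theorem avg_sub (N : ℕ) (a b : ℕ → ℂ) : avg N (fun n => a n - b n) = avg N a - avg N b := by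
  unfold avg; rw [Finset.sum_sub_distrib, sub_div]

theorem avg_const_mul (N : ℕ) (c : ℂ) (a : ℕ → ℂ) :
    avg N (fun n => c * a n) = c * avg N a := by
  unfold avg; rw [← Finset.mul_sum, mul_div_assoc]

theorem norm_avg_le (N : ℕ) (a : ℕ → ℂ) : ‖avg N a‖ ≤ ravg N (fun n => ‖a n‖) := by
  unfold avg ravg
  rw [norm_div, Complex.norm_natCast]
  exact div_le_div_of_nonneg_right (norm_sum_le _ _) (by positivity)

theorem ravg_mono (N : ℕ) {a b : ℕ → ℝ} (h : ∀ n, a n ≤ b n) : ravg N a ≤ ravg N b := by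
  unfold ravg
  exact div_le_div_of_nonneg_right (Finset.sum_le_sum fun n _ => h n) (by positivity)

theorem ravg_nonneg (N : ℕ) {a : ℕ → ℝ} (h : ∀ n, 0 ≤ a n) : 0 ≤ ravg N a := by
  unfold ravg
  exact div_nonneg (Finset.sum_nonneg fun n _ => h n) (by positivity)

theorem ravg_add (N : ℕ) (a b : ℕ → ℝ) : ravg N (fun n => a n + b n) = ravg N a + ravg N b := by
  unfold ravg; rw [Finset.sum_add_distrib, add_div]

theorem ravg_const_mul (N : ℕ) (c : ℝ) (a : ℕ → ℝ) :
    ravg N (fun n => c * a n) = c * ravg N a := by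
  unfold ravg; rw [← Finset.mul_sum, mul_div_assoc]

theorem ravg_le_of_le (N : ℕ) {a : ℕ → ℝ} {c : ℝ} (hc : 0 ≤ c) (h : ∀ n, a n ≤ c) :
    ravg N a ≤ c := by
  unfold ravg
  rcases Nat.eq_zero_or_pos N with rfl | hN
  · simpa using hc
  · rw [div_le_iff₀ (by exact_mod_cast hN)]
    calc ∑ n ∈ range N, a n ≤ ∑ n ∈ range N, c := Finset.sum_le_sum fun n _ => h n
      _ = c * N := by simp [mul_comm]

theorem norm_avg_le_of_le (N : ℕ) {a : ℕ → ℂ} {c : ℝ} (hc : 0 ≤ c) (h : ∀ n, ‖a n‖ ≤ c) :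
    ‖avg N a‖ ≤ c :=
  (norm_avg_le N a).trans (ravg_le_of_le N hc h)

theorem tendsto_avg_zero {a : ℕ → ℂ} (h : Tendsto a atTop (𝓝 0)) :
    Tendsto (fun N => avg N a) atTop (𝓝 0) := by
  refine h.cesaro_smul.congr fun N => ?_
  unfold avg
  rw [Complex.real_smul]
  push_cast
  rw [div_eq_inv_mul]

theorem tendsto_ravg_zero {a : ℕ → ℝ} (h : Tendsto a atTop (𝓝 0)) :
    Tendsto (fun N => ravg N a) atTop (𝓝 0) := by
  refine h.cesaro.congr fun N => ?_
  unfold ravg
  rw [div_eq_inv_mul]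

theorem tendsto_avg_of_sub {a b : ℕ → ℂ} (h : Tendsto (fun n => a n - b n) atTop (𝓝 0))
    (hb : Tendsto (fun N => avg N b) atTop (𝓝 0)) : Tendsto (fun N => avg N a) atTop (𝓝 0) := by
  have := (tendsto_avg_zero h).add hb
  rw [add_zero] at this
  refine this.congr fun N => ?_
  rw [avg_sub]; ring

theorem tendsto_div_nat (C : ℝ) : Tendsto (fun N : ℕ => C / N) atTop (𝓝 0) :=
  tendsto_const_div_atTop_nhds_zero_nat C

theorem avg_shift_one (a : ℕ → ℂ) (ha : ∀ n, ‖a n‖ ≤ 1) :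
    Tendsto (fun N => avg N (fun n => a (n + 1)) - avg N a) atTop (𝓝 0) := by
  refine squeeze_zero_norm (fun N => ?_) (tendsto_div_nat 2)
  have h1 : avg N (fun n => a (n + 1)) - avg N a = (a N - a 0) / N := by
    unfold avg
    have := Finset.sum_range_succ' a N
    rw [Finset.sum_range_succ] at this
    rw [← sub_div]
    congr 1
    linear_combination -this
  rw [h1, norm_div, Complex.norm_natCast]
  refine div_le_div_of_nonneg_right ?_ (by positivity)
  calc ‖a N - a 0‖ ≤ ‖a N‖ + ‖a 0‖ := norm_sub_le _ _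
    _ ≤ 2 := by linarith [ha N, ha 0]

theorem avg_shift (a : ℕ → ℂ) (ha : ∀ n, ‖a n‖ ≤ 1) (m : ℕ) :
    Tendsto (fun N => avg N (fun n => a (n + m)) - avg N a) atTop (𝓝 0) := by
  induction m with
  | zero => simp
  | succ m ih =>
    have h1 := avg_shift_one (fun n => a (n + m)) (fun n => ha _)
    have := h1.add ih
    rw [add_zero] at this
    refine this.congr fun N => ?_
    have h2 : (fun n => a (n + 1 + m)) = fun n => a (n + (m + 1)) := by
      funext n; congr 1; ring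
    simp only [h2]
    ring

theorem ravg_shift_one (a : ℕ → ℝ) (ha : ∀ n, |a n| ≤ 1) :
    Tendsto (fun N => ravg N (fun n => a (n + 1)) - ravg N a) atTop (𝓝 0) := by
  refine squeeze_zero_norm (fun N => ?_) (tendsto_div_nat 2)
  have h1 : ravg N (fun n => a (n + 1)) - ravg N a = (a N - a 0) / N := by
    unfold ravg
    have := Finset.sum_range_succ' a N
    rw [Finset.sum_range_succ] at this
    rw [← sub_div]
    congr 1
    linear_combination -this
  rw [h1, norm_div, Real.norm_natCast]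
  refine div_le_div_of_nonneg_right ?_ (by positivity)
  calc ‖a N - a 0‖ ≤ ‖a N‖ + ‖a 0‖ := norm_sub_le _ _
    _ ≤ 2 := by have := ha N; have := ha 0; simp only [Real.norm_eq_abs]; linarith

theorem ravg_shift (a : ℕ → ℝ) (ha : ∀ n, |a n| ≤ 1) (m : ℕ) :
    Tendsto (fun N => ravg N (fun n => a (n + m)) - ravg N a) atTop (𝓝 0) := by
  induction m with
  | zero => simp
  | succ m ih =>
    have h1 := ravg_shift_one (fun n => a (n + m)) (fun n => ha _)
    have := h1.add ih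
    rw [add_zero] at this
    refine this.congr fun N => ?_
    have h2 : (fun n => a (n + 1 + m)) = fun n => a (n + (m + 1)) := by
      funext n; congr 1; ring
    simp only [h2]
    ring

theorem avg_shift_zero {a : ℕ → ℂ} (ha : ∀ n, ‖a n‖ ≤ 1) (m : ℕ)
    (h : Tendsto (fun N => avg N a) atTop (𝓝 0)) :
    Tendsto (fun N => avg N (fun n => a (n + m))) atTop (𝓝 0) := by
  have := (avg_shift a ha m).add h
  rw [add_zero] at this
  exact this.congr fun N => by ring

theorem ravg_shift_zero {a : ℕ → ℝ} (ha : ∀ n, |a n| ≤ 1) (m : ℕ)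
    (h : Tendsto (fun N => ravg N a) atTop (𝓝 0)) :
    Tendsto (fun N => ravg N (fun n => a (n + m))) atTop (𝓝 0) := by
  have := (ravg_shift a ha m).add h
  rw [add_zero] at this
  exact this.congr fun N => by ring

/-- Cauchy-Schwarz for averages. -/
theorem norm_avg_sq_le (N : ℕ) (a : ℕ → ℂ) : ‖avg N a‖ ^ 2 ≤ ‖avg N (fun n => a n * conj (a n))‖ := by
  have h1 : avg N (fun n => a n * conj (a n)) = ((ravg N (fun n => ‖a n‖ ^ 2) : ℝ) : ℂ) := by
    unfold avg ravg
    push_cast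
    congr 1
    refine Finset.sum_congr rfl fun n _ => ?_
    rw [Complex.mul_conj, Complex.normSq_eq_norm_sq]
    push_cast; rfl
  rw [h1, Complex.norm_real, Real.norm_eq_abs, abs_of_nonneg (ravg_nonneg N fun n => by positivity)]
  refine (pow_le_pow_left₀ (norm_nonneg _) (norm_avg_le N a) 2).trans ?_
  unfold ravg
  rcases Nat.eq_zero_or_pos N with rfl | hN
  · simp
  have hN' : (0 : ℝ) < N := by exact_mod_cast hN
  rw [div_pow, div_le_div_iff₀ (by positivity) hN']
  have := sq_sum_le_card_mul_sum_sq (s := range N) (f := fun n => ‖a n‖)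
  rw [Finset.card_range] at this
  nlinarith [this, hN']

/-- van der Corput's difference theorem for bounded sequences. -/
theorem vdC_seq (a : ℕ → ℂ) (ha : ∀ n, ‖a n‖ ≤ 1)
    (h : ∀ h ≥ 1, Tendsto (fun N => avg N (fun n => a (n + h) * conj (a n))) atTop (𝓝 0)) :
    Tendsto (fun N => avg N a) atTop (𝓝 0) := by
  have hb : ∀ k n, ‖a (n + k) * conj (a n)‖ ≤ 1 := fun k n => by
    rw [norm_mul, RCLike.norm_conj]
    exact mul_le_one₀ (ha _) (norm_nonneg _) (ha _)
  -- the correlations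
  have hcor : ∀ i j : ℕ, i ≠ j →
      Tendsto (fun N => avg N (fun n => a (n + i) * conj (a (n + j)))) atTop (𝓝 0) := by
    have key : ∀ i j : ℕ, j < i →
        Tendsto (fun N => avg N (fun n => a (n + i) * conj (a (n + j)))) atTop (𝓝 0) := by
      intro i j hij
      have h1 := avg_shift_zero (hb (i - j)) j (h (i - j) (by omega))
      refine h1.congr fun N => ?_
      congr 1
      funext n
      have : n + j + (i - j) = n + i := by omega
      rw [this]
    intro i j hij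
    rcases lt_or_gt_of_ne hij with h1 | h1
    · have h2 := (Complex.continuous_conj.tendsto 0).comp (key j i h1)
      rw [map_zero] at h2
      refine h2.congr fun N => ?_
      simp only [Function.comp_apply]
      unfold avg
      rw [map_div₀, map_sum, Complex.conj_natCast]
      congr 1
      refine Finset.sum_congr rfl fun n _ => ?_
      rw [map_mul, Complex.conj_conj, mul_comm]
    · exact key i j h1
  rw [Metric.tendsto_atTop]
  intro ε hε
  -- choice of H
  obtain ⟨H, hH⟩ := exists_nat_gt (9 / ε ^ 2)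
  have hH0 : (0 : ℝ) < H := lt_trans (by positivity) hH
  have hH1 : 9 < ε ^ 2 * H := by
    rw [div_lt_iff₀ (by positivity)] at hH; linarith
  have hHn : 1 ≤ H := by exact_mod_cast hH0
  have hH1' : (1 : ℝ) ≤ H := by exact_mod_cast hHn
  set S : ℕ → ℂ := fun n => ∑ i ∈ range H, a (n + i) with hS
  have e1 : Tendsto (fun N => avg N S - H * avg N a) atTop (𝓝 0) := by
    have h1 : Tendsto (fun N => ∑ i ∈ range H, (avg N (fun n => a (n + i)) - avg N a)) atTop
        (𝓝 (∑ i ∈ range H, 0)) := tendsto_finsetSum _ fun i _ => avg_shift a ha i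
    rw [Finset.sum_const_zero] at h1
    refine h1.congr fun N => ?_
    rw [Finset.sum_sub_distrib]
    simp only [Finset.sum_const, Finset.card_range, nsmul_eq_mul]
    congr 1
    simp only [hS]
    unfold avg
    rw [Finset.sum_comm, Finset.sum_div]
  have e2 : Tendsto (fun N => ∑ i ∈ range H, ∑ j ∈ range H,
      (if i = j then 0 else avg N (fun n => a (n + i) * conj (a (n + j))))) atTop (𝓝 0) := by
    have h1 : Tendsto (fun N => ∑ i ∈ range H, ∑ j ∈ range H,
      (if i = j then 0 else avg N (fun n => a (n + i) * conj (a (n + j))))) atTop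
        (𝓝 (∑ i ∈ range H, ∑ j ∈ range H, 0)) := by
      refine tendsto_finsetSum _ fun i _ => tendsto_finsetSum _ fun j _ => ?_
      by_cases hij : i = j
      · simp [hij]
      · simpa [hij] using hcor i j hij
    simpa using h1
  have e3 : ∀ N, ‖avg N (fun n => S n * conj (S n))‖ ≤ ‖∑ i ∈ range H, ∑ j ∈ range H,
      (if i = j then 0 else avg N (fun n => a (n + i) * conj (a (n + j))))‖ + H := by
    intro N
    have h1 : avg N (fun n => S n * conj (S n)) = (∑ i ∈ range H, ∑ j ∈ range H,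
        (if i = j then 0 else avg N (fun n => a (n + i) * conj (a (n + j))))) +
        ∑ i ∈ range H, avg N (fun n => a (n + i) * conj (a (n + i))) := by
      rw [← Finset.sum_add_distrib]
      have h2 : avg N (fun n => S n * conj (S n)) = ∑ i ∈ range H, ∑ j ∈ range H,
          avg N (fun n => a (n + i) * conj (a (n + j))) := by
        simp only [hS]
        unfold avg
        simp_rw [map_sum, Finset.sum_mul_sum, ← Finset.sum_div]
        congr 1
        rw [Finset.sum_comm]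
        refine Finset.sum_congr rfl fun i _ => ?_
        rw [Finset.sum_comm]
      rw [h2]
      refine Finset.sum_congr rfl fun i hi => ?_
      have h3 : avg N (fun n => a (n + i) * conj (a (n + i))) =
          ∑ j ∈ range H, if i = j then avg N (fun n => a (n + i) * conj (a (n + j))) else 0 := by
        rw [Finset.sum_ite_eq, if_pos hi]
      rw [h3, ← Finset.sum_add_distrib]
      refine Finset.sum_congr rfl fun j _ => ?_
      split_ifs <;> simp
    rw [h1]
    refine (norm_add_le _ _).trans (add_le_add le_rfl ?_)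
    refine (norm_sum_le _ _).trans ?_
    calc ∑ i ∈ range H, ‖avg N (fun n => a (n + i) * conj (a (n + i)))‖ ≤ ∑ i ∈ range H, 1 :=
          Finset.sum_le_sum fun i _ => norm_avg_le_of_le N zero_le_one fun n => by
            rw [norm_mul, RCLike.norm_conj]
            exact mul_le_one₀ (ha _) (norm_nonneg _) (ha _)
      _ = H := by simp
  have e1' := (tendsto_zero_iff_norm_tendsto_zero.1 e1).eventually_lt_const one_pos
  have e2' := (tendsto_zero_iff_norm_tendsto_zero.1 e2).eventually_lt_const one_pos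
  obtain ⟨N₀, hN₀⟩ := Filter.eventually_atTop.1 (e1'.and e2')
  refine ⟨N₀, fun N hN => ?_⟩
  obtain ⟨f1, f2⟩ := hN₀ N hN
  rw [dist_zero_right]
  have f3 : ‖avg N S‖ ^ 2 ≤ 2 * H := by
    refine (norm_avg_sq_le N S).trans ((e3 N).trans ?_)
    linarith
  have f4 : (H : ℝ) * ‖avg N a‖ ≤ ‖avg N S‖ + 1 := by
    have : (H : ℂ) * avg N a = avg N S - (avg N S - H * avg N a) := by ring
    have h5 : ‖(H : ℂ) * avg N a‖ = (H : ℝ) * ‖avg N a‖ := by
      rw [norm_mul, Complex.norm_natCast]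
    rw [← h5, this]
    exact (norm_sub_le _ _).trans (by linarith)
  by_contra hcon
  push Not at hcon
  have f5 : (H : ℝ) * ε ≤ ‖avg N S‖ + 1 := by
    refine le_trans ?_ f4
    exact mul_le_mul_of_nonneg_left hcon hH0.le
  have f6 : (‖avg N S‖ + 1) ^ 2 ≤ 2 * ‖avg N S‖ ^ 2 + 2 := by nlinarith [sq_nonneg (‖avg N S‖ - 1)]
  have f7 : ((H : ℝ) * ε) ^ 2 ≤ (‖avg N S‖ + 1) ^ 2 := pow_le_pow_left₀ (by positivity) f5 2
  have f8 : (H : ℝ) * (ε ^ 2 * H) = ((H : ℝ) * ε) ^ 2 := by ring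
  nlinarith [f3, f6, f7, f8, hH1, hH0, hH1']

/-- Summation by parts. -/
theorem abel (z w : ℕ → ℂ) (hz : ∀ n, ‖z n‖ ≤ 1)
    (h1 : ∀ᶠ n in atTop, z n = (z (n + 1) - z n) * w n)
    (h2 : Tendsto (fun n => w (n + 1) - w n) atTop (𝓝 0)) :
    Tendsto (fun N => avg N z) atTop (𝓝 0) := by
  have hw : Tendsto (fun N : ℕ => w N / N) atTop (𝓝 0) := by
    have h3 := tendsto_avg_zero h2
    have h4 : Tendsto (fun N : ℕ => w 0 / (N : ℂ)) atTop (𝓝 0) :=
      tendsto_const_div_atTop_nhds_zero_nat (w 0)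
    have h5 := h3.add h4
    rw [add_zero] at h5
    refine h5.congr fun N => ?_
    unfold avg
    rw [Finset.sum_range_sub, ← add_div]
    congr 1
    ring
  have ha : Tendsto (fun N => avg N (fun n => z (n + 2) * w (n + 1) - z (n + 1) * w n))
      atTop (𝓝 0) := by
    have h3 : ∀ N : ℕ, avg N (fun n => z (n + 2) * w (n + 1) - z (n + 1) * w n) =
        z (N + 1) * (w N / N) - z 1 * w 0 / N := by
      intro N
      unfold avg
      rw [Finset.sum_range_sub (fun n => z (n + 1) * w n) N]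
      ring
    simp only [h3]
    have h4 : Tendsto (fun N : ℕ => z (N + 1) * (w N / N)) atTop (𝓝 0) := by
      refine squeeze_zero_norm (fun N => ?_) (tendsto_zero_iff_norm_tendsto_zero.1 hw)
      rw [norm_mul]
      exact mul_le_of_le_one_left (norm_nonneg _) (hz _)
    have h5 : Tendsto (fun N : ℕ => z 1 * w 0 / (N : ℂ)) atTop (𝓝 0) :=
      tendsto_const_div_atTop_nhds_zero_nat (z 1 * w 0)
    simpa using h4.sub h5
  have h6 : Tendsto (fun N => avg N (fun n => z (n + 1))) atTop (𝓝 0) := by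
    refine tendsto_avg_of_sub ?_ ha
    have h7 : Tendsto (fun n => -(z (n + 1) * (w (n + 1) - w n))) atTop (𝓝 0) := by
      have : Tendsto (fun n => z (n + 1) * (w (n + 1) - w n)) atTop (𝓝 0) := by
        refine squeeze_zero_norm (fun N => ?_) (tendsto_zero_iff_norm_tendsto_zero.1 h2)
        rw [norm_mul]
        exact mul_le_of_le_one_left (norm_nonneg _) (hz _)
      simpa using this.neg
    refine h7.congr' ?_
    have h8 := (tendsto_add_atTop_nat 1).eventually h1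
    filter_upwards [h8] with n hn
    have : z (n + 1 + 1) = z (n + 2) := rfl
    rw [this] at hn
    linear_combination -hn
  have := h6.sub (avg_shift_one z hz)
  rw [sub_zero] at this
  exact this.congr fun N => by ring

/-! ### The function `e` -/

theorem norm_e (x : ℝ) : ‖e x‖ = 1 := by
  unfold e
  rw [show (2 * (Real.pi : ℂ) * x * Complex.I) = ((2 * Real.pi * x : ℝ) : ℂ) * Complex.I by
    push_cast; ring]
  exact Complex.norm_exp_ofReal_mul_I _

theorem e_add (x y : ℝ) : e (x + y) = e x * e y := by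
  unfold e
  rw [← Complex.exp_add]
  congr 1
  push_cast; ring

theorem e_zero : e 0 = 1 := by simp [e]

theorem conj_e (x : ℝ) : conj (e x) = e (-x) := by
  unfold e
  rw [← Complex.exp_conj]
  congr 1
  rw [map_mul, map_mul, map_mul, Complex.conj_I, Complex.conj_ofReal, Complex.conj_ofReal]
  have : conj (2 : ℂ) = 2 := Complex.conj_ofNat 2
  rw [this]
  push_cast
  ring

theorem e_sub (x y : ℝ) : e (x - y) = e x * conj (e y) := by
  rw [conj_e, ← e_add, sub_eq_add_neg]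

theorem e_lip (x y : ℝ) : ‖e x - e y‖ ≤ 2 * Real.pi * |x - y| := by
  have h1 : e x - e y = e y * (e (x - y) - 1) := by
    rw [mul_sub, ← e_add, mul_one]
    congr 2
    ring
  rw [h1, norm_mul, norm_e, one_mul]
  have h2 := Real.norm_exp_I_mul_ofReal_sub_one_le (x := 2 * Real.pi * (x - y))
  have h3 : e (x - y) = Complex.exp (Complex.I * ((2 * Real.pi * (x - y) : ℝ) : ℂ)) := by
    unfold e
    congr 1
    push_cast; ring
  rw [h3]
  refine h2.trans (le_of_eq ?_)
  rw [Real.norm_eq_abs, abs_mul, abs_of_pos (by positivity : (0:ℝ) < 2 * Real.pi)]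

theorem e_sub_one (x : ℝ) : ‖e x - 1 - 2 * Real.pi * Complex.I * x‖ ≤ 2 * (2 * Real.pi * |x|) ^ 2 := by
  set y : ℝ := 2 * Real.pi * x with hy
  have hye : e x = Complex.exp (y * Complex.I) := by
    unfold e; congr 1; rw [hy]; push_cast; ring
  have hyI : 2 * Real.pi * Complex.I * x = y * Complex.I := by rw [hy]; push_cast; ring
  have hn : ‖(y : ℂ) * Complex.I‖ = 2 * Real.pi * |x| := by
    rw [norm_mul, Complex.norm_I, mul_one, Complex.norm_real, Real.norm_eq_abs, hy, abs_mul,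
      abs_of_pos (by positivity : (0:ℝ) < 2 * Real.pi)]
  rw [hyI, hye, ← hn]
  rcases le_or_gt ‖(y : ℂ) * Complex.I‖ 1 with h | h
  · refine (Complex.norm_exp_sub_one_sub_id_le h).trans ?_
    nlinarith [sq_nonneg ‖(y : ℂ) * Complex.I‖]
  · have h1 : ‖Complex.exp (y * Complex.I) - 1‖ ≤ ‖(y : ℂ) * Complex.I‖ := by
      have := Real.norm_exp_I_mul_ofReal_sub_one_le (x := y)
      rw [mul_comm] at this
      refine this.trans (le_of_eq ?_)
      simp
    refine (norm_sub_le _ _).trans ?_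
    nlinarith

/-! ### Classes of functions -/

/-- The span of the powers with non-integer exponents in `(0, t)`. -/
def V1 (t : ℝ) : Submodule ℝ (ℕ → ℝ) :=
  Submodule.span ℝ {f | ∃ τ : ℝ, PosNonInt τ ∧ τ < t ∧ f = fun n : ℕ => (n : ℝ) ^ τ}

/-- Null sequences. -/
def Z : Submodule ℝ (ℕ → ℝ) where
  carrier := {f | Tendsto f atTop (𝓝 0)}
  add_mem' := fun {f g} hf hg => by
    have := Tendsto.add hf hg
    rw [add_zero] at this
    exact this
  zero_mem' := tendsto_const_nhds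
  smul_mem' := fun c f hf => by
    have := Tendsto.const_mul c hf
    rw [mul_zero] at this
    exact this

def V (t : ℝ) : Submodule ℝ (ℕ → ℝ) := V1 t ⊔ Z

theorem V1_mono {s t : ℝ} (h : s ≤ t) : V1 s ≤ V1 t := by
  refine Submodule.span_mono ?_
  rintro f ⟨τ, h1, h2, h3⟩
  exact ⟨τ, h1, h2.trans_le h, h3⟩

theorem V_mono {s t : ℝ} (h : s ≤ t) : V s ≤ V t := sup_le_sup_right (V1_mono h) _

theorem pow_mem_V {τ t : ℝ} (hτ : PosNonInt τ) (h : τ < t) : (fun n : ℕ => (n : ℝ) ^ τ) ∈ V t :=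
  Submodule.mem_sup_left (Submodule.subset_span ⟨τ, hτ, h, rfl⟩)

/-- The difference operator as a linear map. -/
def Dh (h : ℕ) : (ℕ → ℝ) →ₗ[ℝ] (ℕ → ℝ) where
  toFun := fun f n => f (n + h) - f n
  map_add' := fun f g => by funext n; simp only [Pi.add_apply]; ring
  map_smul' := fun c f => by
    funext n; simp only [Pi.smul_apply, smul_eq_mul, RingHom.id_apply]; ring

theorem pni_sub_nat {τ : ℝ} (hτ : PosNonInt τ) {j : ℕ} (hj : j ≤ ⌊τ⌋₊) :
    PosNonInt (τ - j) := by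
  refine ⟨?_, fun m hm => hτ.2 (m + j) ?_⟩
  · have h1 : (⌊τ⌋₊ : ℝ) ≤ τ := Nat.floor_le hτ.1.le
    have h2 : (⌊τ⌋₊ : ℝ) ≠ τ := fun h => hτ.2 ⌊τ⌋₊ (by rw [← h]; simp)
    have h3 : (j : ℝ) ≤ ⌊τ⌋₊ := by exact_mod_cast hj
    have h4 : (⌊τ⌋₊ : ℝ) < τ := lt_of_le_of_ne h1 h2
    linarith
  · push_cast
    linarith

/-- Difference of a power. -/
theorem Dh_pow {τ : ℝ} (hτ : PosNonInt τ) (h1 : 1 < τ) (h : ℕ) :
    Dh h (fun n : ℕ => (n : ℝ) ^ τ) - (fun n : ℕ => τ * h * (n : ℝ) ^ (τ - 1)) ∈ V (τ - 1) := by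
  have hfl : 1 ≤ ⌊τ⌋₊ := Nat.le_floor (by simpa using h1.le)
  obtain ⟨d, hd⟩ : ∃ d, ⌊τ⌋₊ = d + 1 := ⟨⌊τ⌋₊ - 1, by omega⟩
  set z : ℕ → ℝ := fun n => ((n + h : ℕ) : ℝ) ^ τ -
      ∑ j ∈ range (⌊τ⌋₊ + 1), (∏ i ∈ range j, (τ - i)) / (j.factorial : ℝ) *
        (n : ℝ) ^ (τ - j) * (h : ℝ) ^ j with hz
  have hzZ : z ∈ Z := by
    change Tendsto z atTop (𝓝 0)
    rw [Metric.tendsto_atTop]
    intro ε hε
    obtain ⟨N, hN⟩ := Filter.eventually_atTop.1 (taylor τ hτ h (ε / 2) (by positivity))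
    refine ⟨N, fun n hn => ?_⟩
    rw [dist_zero_right, Real.norm_eq_abs]
    exact (hN n hn h le_rfl).trans_lt (by linarith)
  have e1 : Dh h (fun n : ℕ => (n : ℝ) ^ τ) - (fun n : ℕ => τ * h * (n : ℝ) ^ (τ - 1)) =
      (∑ j ∈ range d, ((∏ i ∈ range (j + 2), (τ - i)) / ((j + 2).factorial : ℝ) *
        (h : ℝ) ^ (j + 2)) • (fun n : ℕ => (n : ℝ) ^ (τ - (j + 2 : ℕ)))) + z := by
    funext n
    simp only [Pi.sub_apply, Pi.add_apply, Finset.sum_apply, Pi.smul_apply, smul_eq_mul, hz]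
    rw [hd, Finset.sum_range_succ' _ (d + 1), Finset.sum_range_succ' _ d]
    have e2 : (∑ k ∈ range d, (∏ i ∈ range (k + 1 + 1), (τ - i)) / ((k + 1 + 1).factorial : ℝ) *
        (n : ℝ) ^ (τ - (k + 1 + 1 : ℕ)) * (h : ℝ) ^ (k + 1 + 1)) =
        ∑ c ∈ range d, (∏ i ∈ range (c + 2), (τ - i)) / ((c + 2).factorial : ℝ) *
          (h : ℝ) ^ (c + 2) * (n : ℝ) ^ (τ - (c + 2 : ℕ)) := by
      refine Finset.sum_congr rfl fun k _ => ?_
      ring
    rw [e2]
    simp only [Dh, LinearMap.coe_mk, AddHom.coe_mk]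
    simp
    ring
  rw [e1]
  refine Submodule.add_mem _ (Submodule.sum_mem _ fun j hj => Submodule.smul_mem _ _ ?_)
    (Submodule.mem_sup_right hzZ)
  rw [Finset.mem_range] at hj
  refine pow_mem_V (pni_sub_nat hτ (by omega)) ?_
  push_cast
  linarith [(Nat.cast_nonneg j : (0:ℝ) ≤ j)]

theorem Dh_mem {t : ℝ} (h : ℕ) {g : ℕ → ℝ} (hg : g ∈ V t) : Dh h g ∈ V (t - 1) := by
  have hZ : ∀ {g : ℕ → ℝ}, g ∈ Z → Dh h g ∈ Z := by
    intro g hg
    change Tendsto (fun n => g (n + h) - g n) atTop (𝓝 0)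
    have h1 : Tendsto g atTop (𝓝 0) := hg
    have h2 := (h1.comp (tendsto_add_atTop_nat h)).sub h1
    rw [sub_zero] at h2
    exact h2
  obtain ⟨g1, hg1, z, hz, rfl⟩ := Submodule.mem_sup.1 hg
  rw [map_add]
  refine Submodule.add_mem _ ?_ (Submodule.mem_sup_right (hZ hz))
  refine Submodule.span_induction (p := fun g _ => Dh h g ∈ V (t - 1)) ?_ ?_ ?_ ?_ hg1
  · rintro f ⟨τ, hτ, hlt, rfl⟩
    rcases lt_or_gt_of_ne (show τ ≠ 1 from fun h => hτ.2 1 (by simpa using h)) with h1 | h1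
    · refine Submodule.mem_sup_right ?_
      change Tendsto (fun n : ℕ => ((n + h : ℕ) : ℝ) ^ τ - (n : ℝ) ^ τ) atTop (𝓝 0)
      rw [Metric.tendsto_atTop]
      intro ε hε
      obtain ⟨N, hN⟩ := Filter.eventually_atTop.1 (taylor τ hτ h (ε / 2) (by positivity))
      refine ⟨N, fun n hn => ?_⟩
      rw [dist_zero_right, Real.norm_eq_abs]
      have h2 := hN n hn h le_rfl
      have h3 : ⌊τ⌋₊ = 0 := Nat.floor_eq_zero.2 h1
      rw [h3] at h2
      simp at h2
      push_cast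
      exact h2.trans_lt (by linarith)
    · have h2 := V_mono (show τ - 1 ≤ t - 1 by linarith) (Dh_pow hτ h1 h)
      have h3 : (fun n : ℕ => τ * h * (n : ℝ) ^ (τ - 1)) ∈ V (t - 1) := by
        have h4 : (fun n : ℕ => τ * h * (n : ℝ) ^ (τ - 1)) =
            (τ * h) • (fun n : ℕ => (n : ℝ) ^ (τ - 1)) := by
          funext n; simp
        rw [h4]
        refine Submodule.smul_mem _ _ (pow_mem_V ?_ (by linarith))
        have := pni_sub_nat hτ (j := 1) (Nat.le_floor (by simpa using h1.le))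
        simpa using this
      have := Submodule.add_mem _ h2 h3
      rwa [sub_add_cancel] at this
  · rw [map_zero]; exact Submodule.zero_mem _
  · intro f g _ _ hf hg
    rw [map_add]; exact Submodule.add_mem _ hf hg
  · intro c f _ hf
    rw [map_smul]; exact Submodule.smul_mem _ _ hf

/-! ### The slow case -/

/-- asymptotics of first and second differences, relative to the exponent `t` -/
def Q (t : ℝ) (f : ℕ → ℝ) (L : ℝ) : Prop :=
  Tendsto (fun n : ℕ => (f (n + 1) - f n) / (n : ℝ) ^ (t - 1)) atTop (𝓝 L) ∧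
  Tendsto (fun n : ℕ => (f (n + 2) - 2 * f (n + 1) + f n) / (n : ℝ) ^ (2 * t - 2)) atTop (𝓝 0)

theorem Q.add {t : ℝ} {f g : ℕ → ℝ} {L M : ℝ} (hf : Q t f L) (hg : Q t g M) :
    Q t (fun n => f n + g n) (L + M) := by
  refine ⟨(hf.1.add hg.1).congr fun n => by ring, ?_⟩
  have := hf.2.add hg.2
  rw [add_zero] at this
  exact this.congr fun n => by ring

theorem Q.const_mul {t : ℝ} {f : ℕ → ℝ} {L : ℝ} (c : ℝ) (hf : Q t f L) :
    Q t (fun n => c * f n) (c * L) := by
  refine ⟨(hf.1.const_mul c).congr fun n => by ring, ?_⟩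
  have := hf.2.const_mul c
  rw [mul_zero] at this
  exact this.congr fun n => by ring

theorem tendsto_nat_rpow_neg {a : ℝ} (ha : a < 0) :
    Tendsto (fun n : ℕ => (n : ℝ) ^ a) atTop (𝓝 0) := by
  have h3 := (tendsto_rpow_neg_atTop (y := -a) (by linarith)).comp
    (tendsto_natCast_atTop_atTop (R := ℝ))
  simpa [Function.comp_def] using h3

theorem tay_one (c x u : ℝ) : tay c 1 x u = x ^ c + c * x ^ (c - 1) * u := by
  simp [tay, Finset.sum_range_succ]

theorem pow_bound {τ : ℝ} (hτ : τ ≤ 2) {n : ℕ} (hn : 0 < n) (u : ℕ) :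
    |((n + u : ℕ) : ℝ) ^ τ - (n : ℝ) ^ τ - τ * (n : ℝ) ^ (τ - 1) * u| ≤
      |τ| * |τ - 1| * (n : ℝ) ^ (τ - 2) * (u : ℝ) ^ 2 := by
  have h := tay_bound 1 τ n u (by exact_mod_cast hn) (by positivity) (by push_cast; linarith)
  rw [tay_one] at h
  have e1 : τ - ((1 : ℕ) : ℝ) - 1 = τ - 2 := by push_cast; ring
  rw [e1] at h
  have e2 : ∏ i ∈ range (1 + 1), |τ - (i : ℝ)| = |τ| * |τ - 1| := by
    simp [Finset.prod_range_succ]
  rw [e2] at h
  rw [Nat.cast_add]
  have e3 : ((n : ℝ) + u) ^ τ - (n : ℝ) ^ τ - τ * (n : ℝ) ^ (τ - 1) * u =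
    ((n : ℝ) + u) ^ τ - ((n : ℝ) ^ τ + τ * (n : ℝ) ^ (τ - 1) * u) := by ring
  rw [e3]
  simpa using h

theorem Q_pow {t τ : ℝ} (h0 : 0 < t) (h2 : τ ≤ t) (h3 : t < 1) :
    Q t (fun n : ℕ => (n : ℝ) ^ τ) (if τ = t then t else 0) := by
  set C := |τ| * |τ - 1| with hC
  have hC0 : 0 ≤ C := by positivity
  constructor
  · have e1 : Tendsto (fun n : ℕ => τ * (n : ℝ) ^ (τ - t)) atTop (𝓝 (if τ = t then t else 0)) := by
      split_ifs with h
      · subst h
        simp only [sub_self, Real.rpow_zero, mul_one]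
        exact tendsto_const_nhds
      · have : τ - t < 0 := by
          rcases lt_or_eq_of_le h2 with h' | h'
          · linarith
          · exact absurd h' h
        simpa using (tendsto_nat_rpow_neg this).const_mul τ
    have e2 : Tendsto (fun n : ℕ => (((n + 1 : ℕ) : ℝ) ^ τ - (n : ℝ) ^ τ - τ * (n : ℝ) ^ (τ - 1)) /
        (n : ℝ) ^ (t - 1)) atTop (𝓝 0) := by
      have e3 : Tendsto (fun n : ℕ => C * (n : ℝ) ^ (τ - t - 1)) atTop (𝓝 0) := by
        simpa using (tendsto_nat_rpow_neg (show τ - t - 1 < 0 by linarith)).const_mul C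
      refine squeeze_zero_norm' ?_ e3
      filter_upwards [eventually_gt_atTop 0] with n hn
      have hn' : (0:ℝ) < n := by exact_mod_cast hn
      have h4 := pow_bound (τ := τ) (by linarith) hn 1
      rw [Real.norm_eq_abs, abs_div, abs_of_pos (Real.rpow_pos_of_pos hn' (t - 1)),
        div_le_iff₀ (Real.rpow_pos_of_pos hn' _), mul_assoc, ← Real.rpow_add hn']
      have e4 : τ - t - 1 + (t - 1) = τ - 2 := by ring
      rw [e4]
      simpa using h4
    have e5 := e1.add e2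
    rw [add_zero] at e5
    refine e5.congr' ?_
    filter_upwards [eventually_gt_atTop 0] with n hn
    have hn' : (0:ℝ) < n := by exact_mod_cast hn
    have hne : (n : ℝ) ^ (t - 1) ≠ 0 := (Real.rpow_pos_of_pos hn' _).ne'
    have e6 : (n : ℝ) ^ (τ - t) = (n : ℝ) ^ (τ - 1) / (n : ℝ) ^ (t - 1) := by
      rw [← Real.rpow_sub hn']; congr 1; ring
    rw [e6]
    field_simp
    ring
  · have e3 : Tendsto (fun n : ℕ => 6 * C * (n : ℝ) ^ (τ - 2 * t)) atTop (𝓝 0) := by
      simpa using (tendsto_nat_rpow_neg (show τ - 2 * t < 0 by linarith)).const_mul (6 * C)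
    refine squeeze_zero_norm' ?_ e3
    filter_upwards [eventually_gt_atTop 0] with n hn
    have hn' : (0:ℝ) < n := by exact_mod_cast hn
    have h4 := pow_bound (τ := τ) (by linarith) hn 1
    have h5 := pow_bound (τ := τ) (by linarith) hn 2
    rw [Real.norm_eq_abs, abs_div, abs_of_pos (Real.rpow_pos_of_pos hn' (2 * t - 2)),
      div_le_iff₀ (Real.rpow_pos_of_pos hn' _), mul_assoc, ← Real.rpow_add hn']
    have e4 : τ - 2 * t + (2 * t - 2) = τ - 2 := by ring
    rw [e4]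
    rw [← hC] at h4 h5
    push_cast at h4 h5 ⊢
    rw [abs_le] at h4 h5 ⊢
    constructor <;> nlinarith [h4.1, h4.2, h5.1, h5.2]

theorem Q_of_mem {t : ℝ} (h0 : 0 < t) (h3 : t < 1) {g : ℕ → ℝ} (hg : g ∈ V1 t) : Q t g 0 := by
  refine Submodule.span_induction (p := fun g _ => Q t g 0) ?_ ?_ ?_ ?_ hg
  · rintro f ⟨τ, hτ, hlt, rfl⟩
    have := Q_pow h0 hlt.le h3
    rwa [if_neg hlt.ne] at this
  · constructor <;> simp
  · intro f g _ _ hf hg
    have := hf.add hg
    rw [add_zero] at this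
    exact this
  · intro c f _ hf
    have := hf.const_mul c
    rw [mul_zero] at this
    exact this

theorem slow_of_Q {t : ℝ} (h3 : t < 1) {f : ℕ → ℝ} {L : ℝ} (hL : L ≠ 0)
    (hQ : Q t f L) : Tendsto (fun N => avg N (fun n => e (f n))) atTop (𝓝 0) := by
  set δ : ℕ → ℝ := fun n => f (n + 1) - f n with hδ
  have hp1 : Tendsto (fun n : ℕ => (n : ℝ) ^ (t - 1)) atTop (𝓝 0) :=
    tendsto_nat_rpow_neg (by linarith)
  have hd1 : Tendsto (fun n : ℕ => δ n / (n : ℝ) ^ (t - 1)) atTop (𝓝 L) := hQ.1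
  have hd2 : Tendsto (fun n : ℕ => (δ (n + 1) - δ n) / (n : ℝ) ^ (2 * t - 2)) atTop (𝓝 0) := by
    refine hQ.2.congr fun n => ?_
    simp only [hδ]
    congr 1
    have : f (n + 1 + 1) = f (n + 2) := rfl
    rw [this]; ring
  have hsq : ∀ n : ℕ, 0 < n → (n : ℝ) ^ (2 * t - 2) = (n : ℝ) ^ (t - 1) * (n : ℝ) ^ (t - 1) := by
    intro n hn
    rw [← Real.rpow_add (by exact_mod_cast hn)]
    congr 1; ring
  have hpos : ∀ n : ℕ, 0 < n → (0:ℝ) < (n : ℝ) ^ (t - 1) := fun n hn =>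
    Real.rpow_pos_of_pos (by exact_mod_cast hn) _
  have hd1' : Tendsto (fun n : ℕ => δ (n + 1) / (n : ℝ) ^ (t - 1)) atTop (𝓝 L) := by
    have h4 := hd1.add (hd2.mul hp1)
    rw [mul_zero, add_zero] at h4
    refine h4.congr' ?_
    filter_upwards [eventually_gt_atTop 0] with n hn
    rw [hsq n hn]
    have := (hpos n hn).ne'
    field_simp
    ring
  -- the general lemma on `e δ' - 1`
  have key : ∀ δ' : ℕ → ℝ, Tendsto (fun n : ℕ => δ' n / (n : ℝ) ^ (t - 1)) atTop (𝓝 L) →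
      Tendsto (fun n : ℕ => (e (δ' n) - 1) / (((n : ℝ) ^ (t - 1) : ℝ) : ℂ)) atTop
        (𝓝 (2 * Real.pi * Complex.I * L)) := by
    intro δ' h
    have h5 : Tendsto (fun n : ℕ => 2 * Real.pi * Complex.I *
        ((δ' n / (n : ℝ) ^ (t - 1) : ℝ) : ℂ)) atTop (𝓝 (2 * Real.pi * Complex.I * L)) :=
      Tendsto.const_mul _ ((Complex.continuous_ofReal.tendsto L).comp h)
    have h6 : Tendsto (fun n : ℕ => (e (δ' n) - 1 - 2 * Real.pi * Complex.I * δ' n) /
        (((n : ℝ) ^ (t - 1) : ℝ) : ℂ)) atTop (𝓝 0) := by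
      have h7 : Tendsto (fun n : ℕ => 2 * (2 * Real.pi) ^ 2 * ((δ' n / (n : ℝ) ^ (t - 1)) ^ 2 *
          (n : ℝ) ^ (t - 1))) atTop (𝓝 0) := by
        have := ((h.pow 2).mul hp1).const_mul (2 * (2 * Real.pi) ^ 2)
        simpa using this
      refine squeeze_zero_norm' ?_ h7
      filter_upwards [eventually_gt_atTop 0] with n hn
      have hp := hpos n hn
      rw [norm_div, Complex.norm_real, Real.norm_eq_abs, abs_of_pos hp, div_le_iff₀ hp]
      refine (e_sub_one (δ' n)).trans (le_of_eq ?_)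
      rw [mul_pow, sq_abs]
      field_simp
    have h8 := h6.add h5
    rw [zero_add] at h8
    refine h8.congr' ?_
    filter_upwards [eventually_gt_atTop 0] with n hn
    have hp : (((n : ℝ) ^ (t - 1) : ℝ) : ℂ) ≠ 0 := by exact_mod_cast (hpos n hn).ne'
    rw [Complex.ofReal_div]
    field_simp
    ring
  have hM : (2 * Real.pi * Complex.I * L : ℂ) ≠ 0 := by
    have : (L : ℂ) ≠ 0 := by exact_mod_cast hL
    have h5 : (Real.pi : ℂ) ≠ 0 := by exact_mod_cast Real.pi_ne_zero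
    simp [this, h5, Complex.I_ne_zero]
  have hE := key δ hd1
  have hE' := key (fun n => δ (n + 1)) hd1'
  have hne : ∀ᶠ n in atTop, e (δ n) - 1 ≠ 0 := by
    filter_upwards [hE.eventually_ne hM] with n hn h
    exact hn (by rw [h, zero_div])
  refine abel (fun n => e (f n)) (fun n => (e (δ n) - 1)⁻¹) (fun n => (norm_e _).le) ?_ ?_
  · filter_upwards [hne] with n hn
    have h5 : e (f (n + 1)) = e (f n) * e (δ n) := by
      rw [← e_add]; congr 1; simp only [hδ]; ring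
    rw [h5]
    field_simp
  · have h9 : Tendsto (fun n : ℕ => (e (δ n) - e (δ (n + 1))) / (((n : ℝ) ^ (2 * t - 2) : ℝ) : ℂ))
        atTop (𝓝 0) := by
      have h10 : Tendsto (fun n : ℕ => 2 * Real.pi * |(δ (n + 1) - δ n) / (n : ℝ) ^ (2 * t - 2)|)
          atTop (𝓝 0) := by
        have := (hd2.abs).const_mul (2 * Real.pi)
        simpa using this
      refine squeeze_zero_norm' ?_ h10
      filter_upwards [eventually_gt_atTop 0] with n hn
      have hp : (0:ℝ) < (n : ℝ) ^ (2 * t - 2) := Real.rpow_pos_of_pos (by exact_mod_cast hn) _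
      rw [norm_div, Complex.norm_real, Real.norm_eq_abs, abs_of_pos hp, div_le_iff₀ hp, abs_div,
        abs_of_pos hp]
      refine (e_lip _ _).trans (le_of_eq ?_)
      rw [abs_sub_comm]
      field_simp
    have h11 := h9.div (hE.mul hE') (mul_ne_zero hM hM)
    rw [zero_div] at h11
    refine h11.congr' ?_
    have hne' : ∀ᶠ n in atTop, e (δ (n + 1)) - 1 ≠ 0 := by
      filter_upwards [hE'.eventually_ne hM] with n hn h
      exact hn (by rw [h, zero_div])
    filter_upwards [eventually_gt_atTop 0, hne, hne'] with n hn h12 h13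
    have hp : (((n : ℝ) ^ (t - 1) : ℝ) : ℂ) ≠ 0 := by exact_mod_cast (hpos n hn).ne'
    simp only [Pi.div_apply]
    rw [hsq n hn]
    push_cast at hp ⊢
    rw [inv_sub_inv h13 h12]
    have h14 : e (δ n) - 1 - (e (δ (n + 1)) - 1) = e (δ n) - e (δ (n + 1)) := by ring
    rw [h14]
    field_simp

/-! ### The general case -/

theorem V_slow {t κ : ℝ} (h0 : 0 < t) (h1 : t < 1) (hκ : κ ≠ 0) {g : ℕ → ℝ} (hg : g ∈ V t) :
    Tendsto (fun N => avg N (fun n => e (κ * (n : ℝ) ^ t + g n))) atTop (𝓝 0) := by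
  obtain ⟨g1, hg1, z, hz, rfl⟩ := Submodule.mem_sup.1 hg
  have hQ := ((Q_pow h0 le_rfl h1).const_mul κ).add (Q_of_mem h0 h1 hg1)
  rw [if_pos rfl, add_zero] at hQ
  have h2 := slow_of_Q h1 (mul_ne_zero hκ h0.ne') hQ
  refine tendsto_avg_of_sub ?_ h2
  have hz' : Tendsto z atTop (𝓝 0) := hz
  have h3 : Tendsto (fun n => 2 * Real.pi * |z n|) atTop (𝓝 0) := by
    simpa using (hz'.abs).const_mul (2 * Real.pi)
  refine squeeze_zero_norm (fun n => ?_) h3
  refine (e_lip _ _).trans (le_of_eq ?_)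
  congr 2
  simp only [Pi.add_apply]
  ring

theorem lam_diff {Λ : ℕ → ℂ} (hΛ : ∀ n, ‖Λ n‖ = 1)
    (hΛ' : Tendsto (fun N => ravg N (fun n => if Λ (n + 1) = Λ n then 0 else 1)) atTop (𝓝 0))
    (h : ℕ) : Tendsto (fun N => ravg N (fun n => ‖Λ (n + h) - Λ n‖)) atTop (𝓝 0) := by
  induction h with
  | zero => simp [ravg]
  | succ h ih =>
    have h1 := ravg_shift_zero (a := fun n => if Λ (n + 1) = Λ n then 0 else 1)
      (fun n => by split_ifs <;> simp) h hΛ'
    have h2 := (h1.const_mul 2).add ih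
    rw [mul_zero, add_zero] at h2
    refine squeeze_zero (fun N => ravg_nonneg N fun n => norm_nonneg _) (fun N => ?_) h2
    rw [← ravg_const_mul, ← ravg_add]
    refine ravg_mono N fun n => ?_
    have h3 : Λ (n + (h + 1)) - Λ n = (Λ (n + h + 1) - Λ (n + h)) + (Λ (n + h) - Λ n) := by
      rw [add_assoc]; ring
    rw [h3]
    refine (norm_add_le _ _).trans (add_le_add ?_ le_rfl)
    split_ifs with h4
    · rw [h4]; simp
    · refine (norm_sub_le _ _).trans ?_
      rw [hΛ, hΛ]; norm_num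

theorem step {t κ : ℝ} (ht : PosNonInt t) (h1 : 1 < t) (hκ : κ ≠ 0) {g : ℕ → ℝ} (hg : g ∈ V t)
    (IH : ∀ κ' : ℝ, κ' ≠ 0 → ∀ g' ∈ V (t - 1),
      Tendsto (fun N => avg N (fun n => e (κ' * (n : ℝ) ^ (t - 1) + g' n))) atTop (𝓝 0))
    {Λ : ℕ → ℂ} (hΛ : ∀ n, ‖Λ n‖ = 1)
    (hΛ' : Tendsto (fun N => ravg N (fun n => if Λ (n + 1) = Λ n then 0 else 1)) atTop (𝓝 0)) :
    Tendsto (fun N => avg N (fun n => Λ n * e (κ * (n : ℝ) ^ t + g n))) atTop (𝓝 0) := by
  refine vdC_seq _ (fun n => by rw [norm_mul, hΛ, norm_e, one_mul]) fun h hh => ?_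
  set φ : ℕ → ℝ := fun n => κ * (n : ℝ) ^ t + g n with hφ
  have hh' : (h : ℝ) ≠ 0 := by positivity
  -- the difference
  have hD : ∃ g' ∈ V (t - 1), ∀ n, φ (n + h) - φ n = κ * t * h * (n : ℝ) ^ (t - 1) + g' n := by
    refine ⟨κ • (Dh h (fun n : ℕ => (n : ℝ) ^ t) - (fun n : ℕ => t * h * (n : ℝ) ^ (t - 1))) +
      Dh h g, Submodule.add_mem _ (Submodule.smul_mem _ _ (Dh_pow ht h1 h)) (Dh_mem h hg),
      fun n => ?_⟩
    simp only [hφ, Pi.add_apply, Pi.smul_apply, Pi.sub_apply, smul_eq_mul, Dh, LinearMap.coe_mk,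
      AddHom.coe_mk]
    ring
  obtain ⟨g', hg', hD⟩ := hD
  have h2 := IH (κ * t * h) (mul_ne_zero (mul_ne_zero hκ ht.1.ne') hh') g' hg'
  have h3 : Tendsto (fun N => avg N (fun n =>
      (Λ (n + h) * conj (Λ n) - 1) * e (φ (n + h) - φ n))) atTop (𝓝 0) := by
    refine squeeze_zero_norm (fun N => ?_) (lam_diff hΛ hΛ' h)
    refine (norm_avg_le _ _).trans (ravg_mono N fun n => ?_)
    rw [norm_mul, norm_e, mul_one]
    have h4 : Λ (n + h) * conj (Λ n) - 1 = (Λ (n + h) - Λ n) * conj (Λ n) := by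
      rw [sub_mul, Complex.mul_conj (Λ n), Complex.normSq_eq_norm_sq, hΛ]
      simp
    rw [h4, norm_mul, RCLike.norm_conj, hΛ, mul_one]
  have h5 := h3.add h2
  rw [add_zero] at h5
  refine h5.congr fun N => ?_
  rw [← avg_add]
  congr 1
  funext n
  rw [← hD n]
  change (Λ (n + h) * conj (Λ n) - 1) * e (φ (n + h) - φ n) + e (φ (n + h) - φ n) =
    Λ (n + h) * e (φ (n + h)) * conj (Λ n * e (φ n))
  rw [map_mul, e_sub]
  ring

theorem bad_one : Tendsto (fun N => ravg N (fun n => if (fun _ : ℕ => (1 : ℂ)) (n + 1) =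
    (fun _ : ℕ => (1 : ℂ)) n then 0 else 1)) atTop (𝓝 0) := by
  simp [ravg]

theorem core (d : ℕ) : ∀ (t κ : ℝ), PosNonInt t → ⌊t⌋₊ = d → κ ≠ 0 → ∀ g ∈ V t,
    Tendsto (fun N => avg N (fun n => e (κ * (n : ℝ) ^ t + g n))) atTop (𝓝 0) := by
  induction d with
  | zero =>
    intro t κ ht hd hκ g hg
    exact V_slow ht.1 (Nat.floor_eq_zero.1 hd) hκ hg
  | succ d ih =>
    intro t κ ht hd hκ g hg
    have h1 : 1 < t := by
      have h2 : (1 : ℝ) ≤ t := by
        have h3 : 1 ≤ ⌊t⌋₊ := by omega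
        have := (Nat.le_floor_iff ht.1.le).1 h3
        simpa using this
      rcases lt_or_eq_of_le h2 with h | h
      · exact h
      · exact absurd h.symm (by simpa using ht.2 1)
    have h2 := step ht h1 hκ hg (Λ := fun _ => 1) (fun κ' hκ' g' hg' => ih (t - 1) κ' ?_ ?_ hκ' g' hg')
      (fun _ => by simp) bad_one
    · simpa using h2
    · have := pni_sub_nat ht (j := 1) (by omega)
      simpa using this
    · have := Nat.floor_sub_natCast t 1
      rw [hd] at this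
      simpa using this

theorem core_fast {t κ : ℝ} (ht : PosNonInt t) (h1 : 1 < t) (hκ : κ ≠ 0) {g : ℕ → ℝ}
    (hg : g ∈ V t) {Λ : ℕ → ℂ} (hΛ : ∀ n, ‖Λ n‖ = 1)
    (hΛ' : Tendsto (fun N => ravg N (fun n => if Λ (n + 1) = Λ n then 0 else 1)) atTop (𝓝 0)) :
    Tendsto (fun N => avg N (fun n => Λ n * e (κ * (n : ℝ) ^ t + g n))) atTop (𝓝 0) := by
  refine step ht h1 hκ hg (fun κ' hκ' g' hg' => core _ (t - 1) κ' ?_ rfl hκ' g' hg') hΛ hΛ'
  have := pni_sub_nat ht (j := 1) (Nat.le_floor (by simpa using h1.le))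
  simpa using this

/-- The normal form of the phases. -/
theorem normal_form (T : Finset ℝ) (hT : ∀ τ ∈ T, PosNonInt τ) (κ : ℝ → ℝ)
    (hκ : ∃ τ ∈ T, κ τ ≠ 0) (ψ : ℕ → ℝ) (c₀ : ℝ)
    (hψ : Tendsto (fun n : ℕ => ψ n - ∑ τ ∈ T, κ τ * (n : ℝ) ^ τ) atTop (𝓝 c₀)) :
    ∃ t ∈ T, κ t ≠ 0 ∧ (∀ τ ∈ T, κ τ ≠ 0 → τ ≤ t) ∧ ∃ g ∈ V t, ∀ n, ψ n = c₀ + (κ t * (n : ℝ) ^ t + g n) := by
  classical
  set T0 := T.filter (fun τ => κ τ ≠ 0) with hT0
  have hne : T0.Nonempty := by
    obtain ⟨τ, h1, h2⟩ := hκ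
    exact ⟨τ, Finset.mem_filter.2 ⟨h1, h2⟩⟩
  set t := T0.max' hne with ht
  have htm : t ∈ T0 := Finset.max'_mem _ _
  obtain ⟨h1, h2⟩ := Finset.mem_filter.1 htm
  refine ⟨t, h1, h2, fun τ h3 h4 => Finset.le_max' _ _ (Finset.mem_filter.2 ⟨h3, h4⟩), ?_⟩
  have hsum : ∀ n : ℕ, ∑ τ ∈ T, κ τ * (n : ℝ) ^ τ =
      κ t * (n : ℝ) ^ t + ∑ τ ∈ T0.erase t, κ τ * (n : ℝ) ^ τ := by
    intro n
    rw [Finset.add_sum_erase T0 (fun τ => κ τ * (n : ℝ) ^ τ) htm, hT0, Finset.sum_filter]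
    refine Finset.sum_congr rfl fun τ _ => ?_
    split_ifs with h
    · rfl
    · push Not at h
      rw [h, zero_mul]
  refine ⟨(∑ τ ∈ T0.erase t, κ τ • (fun n : ℕ => (n : ℝ) ^ τ)) +
    (fun n : ℕ => ψ n - ∑ τ ∈ T, κ τ * (n : ℝ) ^ τ - c₀), Submodule.add_mem _
      (Submodule.sum_mem _ fun τ hτ => Submodule.smul_mem _ _ (pow_mem_V ?_ ?_))
      (Submodule.mem_sup_right ?_), fun n => ?_⟩
  · exact hT τ (Finset.mem_filter.1 (Finset.mem_of_mem_erase hτ)).1
  · exact lt_of_le_of_ne (Finset.le_max' _ _ (Finset.mem_of_mem_erase hτ))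
      (Finset.ne_of_mem_erase hτ)
  · change Tendsto (fun n : ℕ => ψ n - ∑ τ ∈ T, κ τ * (n : ℝ) ^ τ - c₀) atTop (𝓝 0)
    have := hψ.sub_const c₀
    rwa [sub_self] at this
  · simp only [Pi.add_apply, Finset.sum_apply, Pi.smul_apply, smul_eq_mul]
    rw [hsum n]
    ring

end ES

/-- T5a -/
theorem exp_sum (T : Finset ℝ) (hT : ∀ τ ∈ T, PosNonInt τ) (κ : ℝ → ℝ)
    (hκ : ∃ τ ∈ T, κ τ ≠ 0) (ψ : ℕ → ℝ) (c₀ : ℝ)
    (hψ : Tendsto (fun n : ℕ => ψ n - ∑ τ ∈ T, κ τ * (n : ℝ) ^ τ) atTop (𝓝 c₀)) :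
    Tendsto (fun N => avg N (fun n => e (ψ n))) atTop (𝓝 0) := by
  obtain ⟨t, h1, h2, _, g, hg, h4⟩ := ES.normal_form T hT κ hκ ψ c₀ hψ
  have h5 := (ES.core _ t (κ t) (hT t h1) rfl h2 g hg).const_mul (e c₀)
  rw [mul_zero] at h5
  refine h5.congr fun N => ?_
  rw [← ES.avg_const_mul]
  congr 1
  funext n
  rw [h4 n, ES.e_add c₀]

/-- T5b: as T5a, but some exponent larger than one is present and there is an additional
unimodular factor which is locally constant at almost all places. -/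
theorem exp_fast (T : Finset ℝ) (hT : ∀ τ ∈ T, PosNonInt τ) (κ : ℝ → ℝ)
    (hκ : ∃ τ ∈ T, 1 < τ ∧ κ τ ≠ 0) (ψ : ℕ → ℝ) (c₀ : ℝ)
    (hψ : Tendsto (fun n : ℕ => ψ n - ∑ τ ∈ T, κ τ * (n : ℝ) ^ τ) atTop (𝓝 c₀))
    (Λ : ℕ → ℂ) (hΛ : ∀ n, ‖Λ n‖ = 1)
    (hΛ' : Tendsto (fun N => ravg N (fun n => if Λ (n + 1) = Λ n then 0 else 1)) atTop (𝓝 0)) :
    Tendsto (fun N => avg N (fun n => Λ n * e (ψ n))) atTop (𝓝 0) := by
  obtain ⟨τ, hτ, hτ1, hτ2⟩ := hκ
  obtain ⟨t, h1, h2, h3, g, hg, h4⟩ := ES.normal_form T hT κ ⟨τ, hτ, hτ2⟩ ψ c₀ hψ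
  have h5 := (ES.core_fast (hT t h1) (hτ1.trans_le (h3 τ hτ hτ2)) h2 hg hΛ hΛ').const_mul (e c₀)
  rw [mul_zero] at h5
  refine h5.congr fun N => ?_
  rw [← ES.avg_const_mul]
  congr 1
  funext n
  rw [h4 n, ES.e_add c₀]
  ring

namespace ES

instance : Fact ((0:ℝ) < 1) := ⟨one_pos⟩

theorem equi_fourier (c : ℝ) (hc : PosNonInt c) (k : ℤ) :
    Tendsto (fun N => avg N (fun n : ℕ => (fourier k : C(AddCircle (1:ℝ), ℂ))
      (((n : ℝ) ^ c : ℝ) : AddCircle (1:ℝ)))) atTop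
      (𝓝 (∫ x in (0:ℝ)..1, (fourier k : C(AddCircle (1:ℝ), ℂ)) (x : AddCircle (1:ℝ)))) := by
  by_cases hk : k = 0
  · subst hk
    simp only [fourier_zero, intervalIntegral.integral_const, sub_zero, one_smul]
    refine Tendsto.congr' ?_ tendsto_const_nhds
    filter_upwards [eventually_gt_atTop 0] with N hN
    unfold avg
    have : (N : ℂ) ≠ 0 := by exact_mod_cast hN.ne'
    simp [this]
  · have h1 : ∫ x in (0:ℝ)..1, (fourier k : C(AddCircle (1:ℝ), ℂ)) (x : AddCircle (1:ℝ)) = 0 := by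
      have hne : (2 * Real.pi * Complex.I * k : ℂ) ≠ 0 := by
        have h5 : (Real.pi : ℂ) ≠ 0 := by exact_mod_cast Real.pi_ne_zero
        have h6 : (k : ℂ) ≠ 0 := by exact_mod_cast hk
        simp [h5, h6, Complex.I_ne_zero]
      have h2 : ∀ x : ℝ, (fourier k : C(AddCircle (1:ℝ), ℂ)) (x : AddCircle (1:ℝ)) =
          Complex.exp ((2 * Real.pi * Complex.I * k) * x) := by
        intro x
        rw [fourier_coe_apply]
        congr 1
        simp
      simp_rw [h2]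
      rw [integral_exp_mul_complex hne]
      have h3 : Complex.exp (2 * Real.pi * Complex.I * k * ((1:ℝ) : ℂ)) = 1 := by
        have := Complex.exp_int_mul_two_pi_mul_I k
        rw [← this]; congr 1; push_cast; ring
      rw [h3]
      simp
    rw [h1]
    have h2 := exp_sum {c} (by simpa using hc) (fun _ => (k : ℝ))
      ⟨c, by simp, by exact_mod_cast hk⟩ (fun n => k * (n : ℝ) ^ c) 0 (by simp)
    refine h2.congr fun N => ?_
    congr 1
    funext n
    rw [fourier_coe_apply]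
    unfold e
    congr 1
    push_cast
    ring

end ES

/-- T5c -/
theorem equi (c : ℝ) (hc : PosNonInt c) (g : ℝ → ℂ) (hg : Continuous g)
    (hg1 : Function.Periodic g 1) :
    Tendsto (fun N => avg N (fun n : ℕ => g ((n : ℝ) ^ c))) atTop (𝓝 (∫ x in (0:ℝ)..1, g x)) := by
  -- the lift of `g`
  let G : C(AddCircle (1:ℝ), ℂ) := ⟨hg1.lift, continuous_coinduced_dom.mpr hg⟩
  have hG : ∀ x : ℝ, G (x : AddCircle (1:ℝ)) = g x := fun x => hg1.lift_coe x
  have main : ∀ F ∈ Submodule.span ℂ (Set.range (@fourier (1:ℝ))),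
      Tendsto (fun N => avg N (fun n : ℕ => F (((n : ℝ) ^ c : ℝ) : AddCircle (1:ℝ)))) atTop
      (𝓝 (∫ x in (0:ℝ)..1, F (x : AddCircle (1:ℝ)))) := by
    intro F hF
    have hcont : ∀ F : C(AddCircle (1:ℝ), ℂ), Continuous fun x : ℝ => F (x : AddCircle (1:ℝ)) :=
      fun F => F.continuous.comp (AddCircle.continuous_mk' 1)
    refine Submodule.span_induction (p := fun F _ =>
      Tendsto (fun N => avg N (fun n : ℕ => F (((n : ℝ) ^ c : ℝ) : AddCircle (1:ℝ)))) atTop
      (𝓝 (∫ x in (0:ℝ)..1, F (x : AddCircle (1:ℝ))))) ?_ ?_ ?_ ?_ hF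
    · rintro _ ⟨k, rfl⟩
      exact ES.equi_fourier c hc k
    · simp [avg]
    · intro F1 F2 _ _ h1 h2
      have h3 := h1.add h2
      have h4 : ∫ x in (0:ℝ)..1, (F1 + F2) (x : AddCircle (1:ℝ)) =
          (∫ x in (0:ℝ)..1, F1 (x : AddCircle (1:ℝ))) +
            ∫ x in (0:ℝ)..1, F2 (x : AddCircle (1:ℝ)) := by
        rw [← intervalIntegral.integral_add ((hcont F1).intervalIntegrable _ _)
          ((hcont F2).intervalIntegrable _ _)]
        rfl
      rw [h4]
      refine h3.congr fun N => ?_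
      rw [← ES.avg_add]
      rfl
    · intro z F1 _ h1
      have h3 := h1.const_mul z
      have h4 : ∫ x in (0:ℝ)..1, (z • F1) (x : AddCircle (1:ℝ)) =
          z * ∫ x in (0:ℝ)..1, F1 (x : AddCircle (1:ℝ)) := by
        rw [← intervalIntegral.integral_const_mul]
        rfl
      rw [h4]
      refine h3.congr fun N => ?_
      rw [← ES.avg_const_mul]
      rfl
  have hcl : G ∈ closure ((Submodule.span ℂ (Set.range (@fourier (1:ℝ))) :
      Submodule ℂ C(AddCircle (1:ℝ), ℂ)) : Set C(AddCircle (1:ℝ), ℂ)) := by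
    have := span_fourier_closure_eq_top (T := (1:ℝ))
    rw [← Submodule.topologicalClosure_coe, this]
    trivial
  rw [Metric.tendsto_atTop]
  intro ε hε
  obtain ⟨F, hF, hFG⟩ := Metric.mem_closure_iff.1 hcl (ε / 3) (by positivity)
  have hpt : ∀ y : AddCircle (1:ℝ), ‖G y - F y‖ ≤ ε / 3 := by
    intro y
    have h1 := (G - F).norm_coe_le_norm y
    rw [← dist_eq_norm] at h1
    exact h1.trans hFG.le
  obtain ⟨N₀, hN₀⟩ := Metric.tendsto_atTop.1 (main F hF) (ε / 3) (by positivity)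
  refine ⟨N₀, fun N hN => ?_⟩
  have h1 := hN₀ N hN
  have h2 : ‖avg N (fun n : ℕ => g ((n : ℝ) ^ c)) -
      avg N (fun n : ℕ => F (((n : ℝ) ^ c : ℝ) : AddCircle (1:ℝ)))‖ ≤ ε / 3 := by
    rw [← ES.avg_sub]
    refine ES.norm_avg_le_of_le N (by positivity) fun n => ?_
    rw [← hG]
    exact hpt _
  have h3 : ‖(∫ x in (0:ℝ)..1, F (x : AddCircle (1:ℝ))) - ∫ x in (0:ℝ)..1, g x‖ ≤ ε / 3 := by
    have hcF : Continuous fun x : ℝ => F (x : AddCircle (1:ℝ)) :=
      F.continuous.comp (AddCircle.continuous_mk' 1)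
    rw [← intervalIntegral.integral_sub (hcF.intervalIntegrable _ _)
      (hg.intervalIntegrable _ _)]
    have h4 := intervalIntegral.norm_integral_le_of_norm_le_const (a := (0:ℝ)) (b := 1)
      (f := fun x : ℝ => F (x : AddCircle (1:ℝ)) - g x) (C := ε / 3) fun x _ => by
        rw [← hG x, norm_sub_rev]
        exact hpt _
    simpa using h4
  rw [dist_eq_norm] at h1 ⊢
  have h5 : avg N (fun n : ℕ => g ((n : ℝ) ^ c)) - ∫ x in (0:ℝ)..1, g x =
      (avg N (fun n : ℕ => g ((n : ℝ) ^ c)) -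
        avg N (fun n : ℕ => F (((n : ℝ) ^ c : ℝ) : AddCircle (1:ℝ)))) +
      (avg N (fun n : ℕ => F (((n : ℝ) ^ c : ℝ) : AddCircle (1:ℝ))) -
        ∫ x in (0:ℝ)..1, F (x : AddCircle (1:ℝ))) +
      ((∫ x in (0:ℝ)..1, F (x : AddCircle (1:ℝ))) - ∫ x in (0:ℝ)..1, g x) := by ring
  rw [h5]
  calc _ ≤ ε / 3 + ‖avg N (fun n : ℕ => F (((n : ℝ) ^ c : ℝ) : AddCircle (1:ℝ))) -
        ∫ x in (0:ℝ)..1, F (x : AddCircle (1:ℝ))‖ + ε / 3 :=
        (norm_add₃_le).trans (add_le_add (add_le_add h2 le_rfl) h3)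
    _ < ε / 3 + ε / 3 + ε / 3 := by gcongr
    _ = ε := by ring

end Pool.Agent.JE
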