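import Pool.Agent.Helper65.JE.Defs

/-!
T3: Taylor expansion of `(n+u)^c` (MP_ce5406_an).
-/

open MeasureTheory Filter Topology Finset
open scoped BigOperators ComplexConjugate

namespace Pool.Agent.JE

/-- Taylor polynomial of degree `d` of `u ↦ (x+u)^c`. -/
noncomputable def tay (c : ℝ) (d : ℕ) (x u : ℝ) : ℝ :=
  ∑ j ∈ range (d + 1), (∏ i ∈ range j, (c - i)) / (j.factorial : ℝ) * x ^ (c - j) * u ^ j

theorem tay_zero (c x u : ℝ) : tay c 0 x u = x ^ c := by
  simp [tay]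

theorem tay_at_zero (c : ℝ) (d : ℕ) (x : ℝ) : tay c d x 0 = x ^ c := by
  unfold tay
  rw [Finset.sum_range_succ']
  simp

theorem hasDerivAt_tay (c : ℝ) (d : ℕ) (x u : ℝ) :
    HasDerivAt (fun u => tay c (d + 1) x u) (c * tay (c - 1) d x u) u := by
  have h1 : (fun u : ℝ => tay c (d + 1) x u) = fun u : ℝ =>
      (∑ j ∈ range (d + 1), (∏ i ∈ range (j + 1), (c - i)) / ((j + 1).factorial : ℝ) *
        x ^ (c - (j + 1 : ℕ)) * u ^ (j + 1)) + x ^ c := by
    funext v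
    unfold tay
    rw [Finset.sum_range_succ' _ (d + 1)]
    simp
  rw [h1]
  have h2 : c * tay (c - 1) d x u = ∑ j ∈ range (d + 1),
      (∏ i ∈ range (j + 1), (c - i)) / ((j + 1).factorial : ℝ) *
        x ^ (c - (j + 1 : ℕ)) * (((j + 1 : ℕ) : ℝ) * u ^ j) := by
    unfold tay
    rw [Finset.mul_sum]
    refine Finset.sum_congr rfl fun j _ => ?_
    rw [Finset.prod_range_succ']
    have e1 : ∏ k ∈ range j, (c - ((k + 1 : ℕ) : ℝ)) = ∏ i ∈ range j, (c - 1 - i) := by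
      refine Finset.prod_congr rfl fun k _ => ?_
      push_cast; ring
    have e2 : c - ((j + 1 : ℕ) : ℝ) = c - 1 - j := by push_cast; ring
    rw [e1, e2, Nat.factorial_succ]
    have hj : (j.factorial : ℝ) ≠ 0 := by positivity
    have hj1 : ((j + 1 : ℕ) : ℝ) ≠ 0 := by positivity
    push_cast at hj1 ⊢
    field_simp
    ring
  rw [h2]
  refine HasDerivAt.add_const _ (HasDerivAt.fun_sum fun j _ => ?_)
  refine HasDerivAt.const_mul _ ?_
  simpa using hasDerivAt_pow (j + 1) u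

theorem tay_bound (d : ℕ) : ∀ (c x u : ℝ), 0 < x → 0 ≤ u → c - d - 1 ≤ 0 →
    |(x + u) ^ c - tay c d x u| ≤ (∏ i ∈ range (d + 1), |c - i|) * x ^ (c - d - 1) * u ^ (d + 1) := by
  induction d with
  | zero =>
    intro c x u hx hu hc
    have hd : ∀ v ∈ Set.Icc (0:ℝ) u, HasDerivWithinAt (fun v : ℝ => (x + v) ^ c)
        (c * (x + v) ^ (c - 1)) (Set.Icc 0 u) v := by
      intro v hv
      have h1 : HasDerivAt (fun v : ℝ => x + v) 1 v := (hasDerivAt_id v).const_add x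
      have h2 := h1.rpow_const (p := c) (Or.inl (by have := hv.1; positivity))
      simpa using h2.hasDerivWithinAt
    have hb : ∀ v ∈ Set.Icc (0:ℝ) u, ‖c * (x + v) ^ (c - 1)‖ ≤ |c| * x ^ (c - 1) := by
      intro v hv
      rw [norm_mul, Real.norm_eq_abs, Real.norm_eq_abs]
      have h3 : 0 < x + v := by linarith [hv.1]
      rw [abs_of_pos (Real.rpow_pos_of_pos h3 _)]
      refine mul_le_mul_of_nonneg_left ?_ (abs_nonneg _)
      exact Real.rpow_le_rpow_of_nonpos hx (by linarith [hv.1]) (by simpa using hc)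
    have h4 := (convex_Icc (0:ℝ) u).norm_image_sub_le_of_norm_hasDerivWithin_le hd hb
      (Set.left_mem_Icc.2 hu) (Set.right_mem_Icc.2 hu)
    rw [tay_zero]
    simp only [add_zero, Real.norm_eq_abs, sub_zero, abs_of_nonneg hu] at h4
    simpa using h4
  | succ d ih =>
    intro c x u hx hu hc
    have hc' : c - 1 - d - 1 ≤ 0 := by push_cast at hc; linarith
    have hd : ∀ v ∈ Set.Icc (0:ℝ) u, HasDerivWithinAt
        (fun v : ℝ => (x + v) ^ c - tay c (d + 1) x v)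
        (c * ((x + v) ^ (c - 1) - tay (c - 1) d x v)) (Set.Icc 0 u) v := by
      intro v hv
      have h1 : HasDerivAt (fun v : ℝ => x + v) 1 v := (hasDerivAt_id v).const_add x
      have h2 := h1.rpow_const (p := c) (Or.inl (by have := hv.1; positivity))
      have h3 := (h2.sub (hasDerivAt_tay c d x v)).hasDerivWithinAt (s := Set.Icc 0 u)
      refine h3.congr_deriv ?_
      ring
    have hb : ∀ v ∈ Set.Icc (0:ℝ) u, ‖c * ((x + v) ^ (c - 1) - tay (c - 1) d x v)‖ ≤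
        |c| * ((∏ i ∈ range (d + 1), |c - 1 - i|) * x ^ (c - 1 - d - 1) * u ^ (d + 1)) := by
      intro v hv
      rw [norm_mul, Real.norm_eq_abs, Real.norm_eq_abs]
      refine mul_le_mul_of_nonneg_left ((ih (c - 1) x v hx hv.1 hc').trans ?_) (abs_nonneg _)
      refine mul_le_mul_of_nonneg_left (pow_le_pow_left₀ hv.1 hv.2 _) ?_
      exact mul_nonneg (Finset.prod_nonneg fun _ _ => abs_nonneg _) (Real.rpow_nonneg hx.le _)
    have h4 := (convex_Icc (0:ℝ) u).norm_image_sub_le_of_norm_hasDerivWithin_le hd hb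
      (Set.left_mem_Icc.2 hu) (Set.right_mem_Icc.2 hu)
    simp only [add_zero, Real.norm_eq_abs, sub_zero, abs_of_nonneg hu, tay_at_zero, sub_self] at h4
    refine h4.trans (le_of_eq ?_)
    rw [Finset.prod_range_succ' (fun i => |c - (i : ℝ)|) (d + 1)]
    have e1 : ∏ k ∈ range (d + 1), |c - ((k + 1 : ℕ) : ℝ)| = ∏ i ∈ range (d + 1), |c - 1 - i| := by
      refine Finset.prod_congr rfl fun k _ => ?_
      congr 1
      push_cast; ring
    have e2 : c - ((d + 1 : ℕ) : ℝ) - 1 = c - 1 - d - 1 := by push_cast; ring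
    rw [e1, e2]
    simp only [Nat.cast_zero, sub_zero]
    ring

/-- T3 -/
theorem taylor (c : ℝ) (_hc : PosNonInt c) (W : ℕ) (ε : ℝ) (hε : 0 < ε) :
    ∀ᶠ n : ℕ in atTop, ∀ u ≤ W, |((n + u : ℕ) : ℝ) ^ c -
      ∑ j ∈ range (⌊c⌋₊ + 1), (∏ i ∈ range j, (c - i)) / (j.factorial : ℝ) *
        (n : ℝ) ^ (c - j) * (u : ℝ) ^ j| ≤ ε := by
  have h0 : c - ⌊c⌋₊ - 1 < 0 := by have := Nat.lt_floor_add_one c; linarith
  have h1 : Tendsto (fun n : ℕ => (∏ i ∈ range (⌊c⌋₊ + 1), |c - i|) *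
      (n : ℝ) ^ (c - ⌊c⌋₊ - 1) * (W : ℝ) ^ (⌊c⌋₊ + 1)) atTop (𝓝 0) := by
    have h2 : Tendsto (fun n : ℕ => (n : ℝ) ^ (c - ⌊c⌋₊ - 1)) atTop (𝓝 0) := by
      have h3 := (tendsto_rpow_neg_atTop (y := -(c - ⌊c⌋₊ - 1)) (by linarith)).comp
        (tendsto_natCast_atTop_atTop (R := ℝ))
      simpa [Function.comp_def] using h3
    have := (h2.const_mul (∏ i ∈ range (⌊c⌋₊ + 1), |c - i|)).mul_const ((W : ℝ) ^ (⌊c⌋₊ + 1))
    simpa using this
  filter_upwards [h1.eventually_le_const hε, eventually_gt_atTop 0] with n hn hn0 u hu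
  have h5 := tay_bound ⌊c⌋₊ c n u (by exact_mod_cast hn0) (by positivity) h0.le
  rw [Nat.cast_add]
  refine (h5.trans ?_).trans hn
  refine mul_le_mul_of_nonneg_left (pow_le_pow_left₀ (by positivity) (by exact_mod_cast hu) _) ?_
  exact mul_nonneg (Finset.prod_nonneg fun _ _ => abs_nonneg _) (by positivity)

end Pool.Agent.JE
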